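import Pool.Agent.H.MP_a58584.D

set_option autoImplicit false
open Set Topology TopologicalSpace

namespace Pool.Agent.Results.MP_5b7d0d_gt.NoExtender
open Pool.Agent.H.MP_a58584

theorem result (A : Type) (hA : Cardinal.mk A = Cardinal.aleph 1)
    (K : Set (A → Set.Icc (0 : ℝ) 1)) (hK : K = {y | ∀ α, (y α).1 = 0 ∨ (y α).1 = 1}) :
    ¬ ∃ φ : {f : K → ℝ // Continuous f} → {g : (A → Set.Icc (0 : ℝ) 1) → ℝ // Continuous g},
        Continuous φ ∧ ∀ (f : {f : K → ℝ // Continuous f}) (x : K), (φ f).1 x.1 = f.1 x := by
  classical
  have h1 : Continuous fun (z : A → Bool) α => cond (z α) (1 : unitInterval) 0 :=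
    continuous_pi fun α => (continuous_of_discreteTopology
      (f := fun b : Bool => cond b (1 : unitInterval) 0)).comp (continuous_apply α)
  have h2 : Function.Injective fun (z : A → Bool) α => cond (z α) (1 : unitInterval) 0 :=
    fun z z' e => funext fun α => by
      have := congrFun e α
      cases a : z α <;> cases b : z' α <;> simp_all
  have he := (h1.isClosedEmbedding h2).isEmbedding
  obtain rfl : K = range fun (z : A → Bool) α => cond (z α) (1 : unitInterval) 0 := by
    rw [hK]
    ext y
    refine ⟨fun h => ⟨fun α => decide ((y α).1 = 1), funext fun α => ?_⟩, ?_⟩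
    · rcases h α with h | h
      · have : y α = 0 := Subtype.ext h
        simp [this]
      · have : y α = 1 := Subtype.ext h
        simp [this]
    · rintro ⟨z, rfl⟩ α
      cases h : z α <;> simp [h]
  exact fun H => noext hA h1 h2 ((Ext.homeo he.toHomeomorph).comp (v := Subtype.val) H)

end Pool.Agent.Results.MP_5b7d0d_gt.NoExtender
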